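import Pool.Agent.Helper85.SV.Main
import Pool.Agent.Helper34.HO.Defs
import Pool.Agent.Helper69.PP.Defs
import Pool.Agent.Helper57.ED.Def
import Pool.Agent.Helper57.HL.Sp
import Pool.Agent.Helper49.HG.Wir

/-!
# HG: a positive proportion of large gaps between the zeros on the critical line (MP_8958e8). Definitions.

`L = log T`, `yy T n = log n / log T`. The polynomial is `A = M₀ R`: `M₀` mollifies the primes below `T^ε` (Brun and Hooley),
`R = ∑ 2^{ω(n)} P(|n|) n^{-s}` over the integers without prime factors below `T^ε`, of length `T^{39/100}`.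
-/

open MeasureTheory Set Filter Topology Finset
open Pool.Agent.Helper4.SH Pool.Agent.Helper69.PP Pool.Agent.Helper85.SV Pool.Agent.Helper57.ED

namespace Pool.Agent.Helper25.HG

/-! ### Small primes -/

/-- the primes below `T^ε` -/
noncomputable def PZ (ε T : ℝ) : Finset ℕ := (Finset.range ⌈T ^ ε⌉₊).filter Nat.Prime

/-- the number of blocks -/
noncomputable def Jn (T : ℝ) : ℕ := ⌈Real.log T⌉₊ + 1

/-- the coefficients of the mollifier: the Moebius function, with at most `b₀ + 2j` prime factors in the block `j` -/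
noncomputable def beta (ε : ℝ) (b₀ : ℕ) (T : ℝ) (n : ℕ) : ℝ :=
  open Classical in
  if Squarefree n ∧ n.primeFactors ⊆ PZ ε T then
    ∏ j ∈ Finset.range (Jn T), gb (b₀ + 2 * j) (n.primeFactors ∩ blk (PZ ε T) (ε * Real.log T) j)
  else 0

/-- the length of the mollifier -/
noncomputable def X0 (ε : ℝ) (b₀ : ℕ) (T : ℝ) : ℕ := ⌊T ^ ((2 * b₀ + 6) * ε)⌋₊

/-- the product of `1 - 1/p` over the primes below `T^ε` -/
noncomputable def V (ε T : ℝ) : ℝ := ∏ p ∈ PZ ε T, (1 - 1 / (p : ℝ))

/-- the density of the numbers without prime factors below `T^ε`, in the scale `log n / log T` -/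
noncomputable def rh (ε T : ℝ) : ℝ := V ε T * Real.log T

/-! ### Large primes -/

/-- the length of the resonator -/
noncomputable def th : ℝ := 39 / 100

/-- the polynomial of the resonator -/
noncomputable def Pq (x : ℝ) : ℝ := 1 - 19 / 2 * x + 41 / 2 * x ^ 2

/-- good numbers: squarefree, prime factors `≥ T^ε` and in distinct cells, size at most `39/100` in cells -/
def Good (ε : ℝ) (G : ℕ) (T : ℝ) (n : ℕ) : Prop :=
  RF ε T n ∧ Squarefree n ∧ Set.InjOn (ce G T) (n.primeFactors : Set ℕ) ∧ (US (ty G T n) : ℝ) ≤ th * G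

/-- no prime factor in a cell above `33/100` -/
def Sml (G : ℕ) (T : ℝ) (n : ℕ) : Prop := ∀ l ∈ ty G T n, (l : ℝ) ≤ 33 / 100 * G

/-- the coefficients of the resonator -/
noncomputable def rr (ε : ℝ) (G : ℕ) (T : ℝ) (n : ℕ) : ℝ :=
  open Classical in
  if Good ε G T n then 2 ^ n.primeFactors.card * Pq ((US (ty G T n) : ℝ) / G) else 0

/-- the part without prime factors above `T^(33/100)` -/
noncomputable def rrS (ε : ℝ) (G : ℕ) (T : ℝ) (n : ℕ) : ℝ :=
  open Classical in if Sml G T n then rr ε G T n else 0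

/-- the part with a prime factor above `T^(33/100)` -/
noncomputable def rrL (ε : ℝ) (G : ℕ) (T : ℝ) (n : ℕ) : ℝ :=
  open Classical in if Sml G T n then 0 else rr ε G T n

/-- the length of the resonator -/
noncomputable def X1 (T : ℝ) : ℕ := ⌊T ^ th⌋₊

/-! ### The product -/

/-- the Dirichlet convolution of two coefficient functions -/
noncomputable def cv (a b : ℕ → ℝ) (n : ℕ) : ℝ := ∑ x ∈ n.divisorsAntidiagonal, a x.1 * b x.2

/-- the length of the product -/
noncomputable def XA (ε : ℝ) (b₀ : ℕ) (T : ℝ) : ℕ := X0 ε b₀ T * X1 T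

/-- the quadratic form with the powers of the least common multiple -/
noncomputable def QL (X : ℕ) (a : ℕ → ℝ) (L x : ℝ) : ℝ :=
  ∑ h ∈ Finset.Icc 1 X, ∑ k ∈ Finset.Icc 1 X, a h * a k * (Nat.lcm h k : ℝ) ^ (-(1 + 2 * x / L))

/-- the quadratic form with the powers of the greatest common divisor -/
noncomputable def QG (X : ℕ) (a : ℕ → ℝ) (L x : ℝ) : ℝ :=
  ∑ h ∈ Finset.Icc 1 X, ∑ k ∈ Finset.Icc 1 X, a h * a k * ((Nat.gcd h k : ℝ) ^ (-(2 * x / L)) / (Nat.lcm h k : ℝ))

/-! ### The limit -/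

/-- the inner integral -/
noncomputable def Fw (x w : ℝ) : ℝ := ∫ u in (0:ℝ)..(th - w), u * Pq (w + u) * Real.exp (-(2 * x * u))

/-- the limit of the form `QL` -/
noncomputable def LamL (x : ℝ) : ℝ := ∫ w in (0:ℝ)..th, w ^ 3 / 6 * Real.exp (-(2 * x * w)) * Fw x w ^ 2

/-- the limit of the form `QG` -/
noncomputable def LamG (x : ℝ) : ℝ := ∫ w in (0:ℝ)..th, w ^ 3 / 6 * Real.exp (-(2 * x * w)) * Fw 0 w ^ 2

/-- the limit of the second moment at `1/2 + x/L` -/
noncomputable def Ph (x : ℝ) : ℝ := (LamL x - Real.exp (-(2 * x)) * LamG x) / (2 * x)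

/-! ### The zeta function near the line -/

/-- the smooth step: `0` on `(-∞, 0]`, `1` on `[1, ∞)` -/
noncomputable def st (x : ℝ) : ℝ := Real.smoothTransition x

/-- lower part of the partition of unity: `1` below `1/2 - 2δ`, `0` above `1/2 - δ` -/
noncomputable def k1 (δ a : ℝ) : ℝ := 1 - st ((a - (1 / 2 - 2 * δ)) / δ)

/-- upper part: `0` below `1/2 + δ`, `1` on `[1/2 + 2δ, 2]`, `0` above `3` -/
noncomputable def k3 (δ a : ℝ) : ℝ := st ((a - (1 / 2 + δ)) / δ) * (1 - st (a - 2))

/-- middle part: `0` outside `[1/2 - 2δ, 1/2 + 2δ]` -/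
noncomputable def k2 (δ a : ℝ) : ℝ := st ((a - (1 / 2 - 2 * δ)) / δ) - st ((a - (1 / 2 + δ)) / δ)

/-- the Dirichlet polynomial with the multiplier `κ` on the critical line -/
noncomputable def Dk (κ : ℝ → ℝ) (T t : ℝ) : ℂ :=
  ∑ n ∈ Finset.Icc 1 ⌊T ^ 4⌋₊, (κ (yy T n) : ℂ) * (n : ℂ) ^ (-(1 / 2 + t * Complex.I))

/-- the critical line -/
noncomputable def hl (t : ℝ) : ℂ := 1 / 2 + t * Complex.I

/-- the ordinates of the zeros on the critical line -/
def ZL : Set ℝ := {t : ℝ | riemannZeta (hl t) = 0}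

end Pool.Agent.Helper25.HG
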