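import Pool.Agent.Helper25.HG.Defs

/-!
# HG: the statements of the blocks (README: /team-store/h25_HG.md)

Every block `X` is delivered as `theorem x : X` with the Prop `X` of this file.
-/

open MeasureTheory Set Filter Topology
open Pool.Agent.Helper4.SH Pool.Agent.Helper69.PP Pool.Agent.Helper85.SV Pool.Agent.Helper57.ED
open Pool.Agent.Helper57.HL (Fs)
open Pool.Agent.Helper49.HG (LongSet)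

namespace Pool.Agent.Helper25.HG

/-- the mollifier on the critical line -/
noncomputable def M0 (ε : ℝ) (b₀ : ℕ) (T t : ℝ) : ℂ := Mo (X0 ε b₀ T) (beta ε b₀ T) (hl t)

/-- the resonator, its small and its large part on the critical line -/
noncomputable def R0 (ε : ℝ) (G : ℕ) (T t : ℝ) : ℂ := Mo (X1 T) (rr ε G T) (hl t)
noncomputable def RS (ε : ℝ) (G : ℕ) (T t : ℝ) : ℂ := Mo (X1 T) (rrS ε G T) (hl t)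
noncomputable def RL (ε : ℝ) (G : ℕ) (T t : ℝ) : ℂ := Mo (X1 T) (rrL ε G T) (hl t)

/-- RO: the forms of the resonator -/
def BRO : Prop := ∀ η x : ℝ, 0 < η → 0 ≤ x → ∃ ε0 : ℝ, 0 < ε0 ∧ ∀ ε : ℝ, 0 < ε → ε ≤ ε0 → ∃ G0 : ℕ, ∀ G : ℕ, G0 ≤ G →
  ∀ᶠ T : ℝ in atTop,
    |QL (X1 T) (rr ε G T) (Real.log T) x - rh ε T ^ 8 * LamL x| ≤ η * rh ε T ^ 8 ∧
    |QG (X1 T) (rr ε G T) (Real.log T) x - rh ε T ^ 8 * LamG x| ≤ η * rh ε T ^ 8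

/-- RL: the form of the large part of the resonator -/
def BRL : Prop := ∃ ε0 : ℝ, 0 < ε0 ∧ ∀ ε : ℝ, 0 < ε → ε ≤ ε0 → ∃ G0 : ℕ, ∀ G : ℕ, G0 ≤ G →
  ∀ᶠ T : ℝ in atTop, (∀ n, 0 ≤ rrL ε G T n) ∧ QL (X1 T) (rrL ε G T) (Real.log T) 0 ≤ 3 / 10 ^ 13 * rh ε T ^ 8

/-- SM: the forms of the mollifier -/
def BSM : Prop := ∀ η x : ℝ, 0 < η → 0 ≤ x → ∃ B0 : ℕ, ∀ b₀ : ℕ, B0 ≤ b₀ → ∃ ε0 : ℝ, 0 < ε0 ∧ ∀ ε : ℝ, 0 < ε → ε ≤ ε0 →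
  ∀ᶠ T : ℝ in atTop,
    |QL (X0 ε b₀ T) (beta ε b₀ T) (Real.log T) x - V ε T| ≤ η * V ε T ∧
    |QG (X0 ε b₀ T) (beta ε b₀ T) (Real.log T) x - V ε T| ≤ η * V ε T

/-- LIM: the second moment at `1/2 + x/L`, normalised -/
def BLIM : Prop := ∀ η x : ℝ, 0 < η → 0 < x → ∃ B0 : ℕ, ∀ b₀ : ℕ, B0 ≤ b₀ → ∃ ε0 : ℝ, 0 < ε0 ∧ ∀ ε : ℝ, 0 < ε → ε ≤ ε0 →
  ∃ G0 : ℕ, ∀ G : ℕ, G0 ≤ G → ∀ c : ℝ, 0 < c → ∀ᶠ T : ℝ in atTop, ∀ l τ : ℝ, c * T ≤ l → l ≤ T → T / 2 ≤ τ → τ ≤ 4 * T →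
    |Fs (XA ε b₀ T) (cv (beta ε b₀ T) (rr ε G T)) l τ (1 / 2 + x / Real.log T) / rh ε T ^ 9 - Ph x| ≤ η

/-- LIML: the second moment of the large part on the line -/
def BLIML : Prop := ∃ B0 : ℕ, ∀ b₀ : ℕ, B0 ≤ b₀ → ∃ ε0 : ℝ, 0 < ε0 ∧ ∀ ε : ℝ, 0 < ε → ε ≤ ε0 →
  ∃ G0 : ℕ, ∀ G : ℕ, G0 ≤ G → ∀ c : ℝ, 0 < c → ∀ᶠ T : ℝ in atTop, ∀ l τ : ℝ, c * T ≤ l → l ≤ T → T / 2 ≤ τ → τ ≤ 4 * T →
    Fs (XA ε b₀ T) (cv (beta ε b₀ T) (rrL ε G T)) l τ (1 / 2) ≤ 4 / 10 ^ 13 * rh ε T ^ 9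

/-- NUM: the moments of the limit measure and the constant `12/5` -/
def BNUM : Prop := ∃ m0 m1 m2 : ℝ, 8 / 10 ^ 10 ≤ m0 ∧
  4 * (12 / 5) ^ 2 * (m2 - 2 * (22 / 25) * m1 + (22 / 25) ^ 2 * m0) ≤ (1 - 12 / 1000) * m0 ∧
  ∃ C : ℝ, ∀ x : ℝ, 0 < x → x ≤ 1 → |Ph x - (m0 - 2 * x * m1 + 2 * x ^ 2 * m2)| ≤ C * x ^ 3

/-- ZD: zeta near the critical line: three Dirichlet polynomials, and the reflection of the third -/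
def BZD : Prop := ∀ δ : ℝ, 0 < δ → δ ≤ 1 / 20 → ∀ᶠ T : ℝ in atTop, ∀ t : ℝ, T / 2 ≤ t → t ≤ 4 * T →
  ‖riemannZeta (hl t) - (Dk (k1 δ) T t + Dk (k2 δ) T t + Dk (k3 δ) T t)‖ ≤ T ^ (-(1 / 4) : ℝ) ∧
  ‖Dk (k3 δ) T t‖ ≤ ‖Dk (fun a => k3 δ (Real.log (t / (2 * Real.pi)) / Real.log T - a)) T t‖ + T ^ (-(1 / 4) : ℝ)

/-- BM4: the fourth moment of the mollified short part -/
def BBM4 : Prop := ∀ κ : ℝ → ℝ, ContDiff ℝ (⊤ : ℕ∞) κ → HasCompactSupport κ → ∀ δ : ℝ, 0 < δ → δ ≤ 1 / 20 →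
  (∀ a, 1 / 2 - δ ≤ a → κ a = 0) → ∀ (b₀ : ℕ) (ε : ℝ), 0 < ε → (2 * b₀ + 6) * ε ≤ δ / 4 → ∃ C : ℝ, ∀ᶠ T : ℝ in atTop,
  ∀ y : ℝ, |y| ≤ δ / 4 →
    ∫ t in (T / 2)..(4 * T), ‖Dk (fun a => κ (a + y)) T t * M0 ε b₀ T t‖ ^ 4 ≤ C * T

/-- MID: the second moment of the middle part, constant independent of `δ`, `b₀`, `ε`, `G` -/
def BMID : Prop := ∃ C : ℝ, 0 < C ∧ ∀ δ : ℝ, 0 < δ → δ ≤ 1 / 20 → ∃ B0 : ℕ, ∀ b₀ : ℕ, B0 ≤ b₀ → ∀ ε : ℝ, 0 < ε →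
  (2 * b₀ + 6) * ε ≤ δ / 4 → ∀ G : ℕ, 1 ≤ G → ∀ᶠ T : ℝ in atTop,
    ∫ t in (T / 2)..(4 * T), ‖Dk (k2 δ) T t * (M0 ε b₀ T t * R0 ε G T t)‖ ^ 2 ≤ C * δ * rh ε T ^ 9 * T ∧
    ∫ t in (T / 2)..(4 * T), ‖Dk (k2 δ) T t * (M0 ε b₀ T t * RS ε G T t)‖ ^ 2 ≤ C * δ * rh ε T ^ 9 * T

/-- UIS: the high moments of the small part of the resonator (through its cell polynomials): for some exponent above 4,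
a function that dominates the small part has a bounded moment -/
def BUIS : Prop := ∀ (ε : ℝ) (G : ℕ), 0 < ε → ε ≤ 1 / 100 → (2 * ((⌈1 / ε⌉₊ : ℕ) : ℝ) + 2) / G ≤ 1 / 1000 →
  ∃ q C : ℝ, 4 < q ∧ ∀ᶠ T : ℝ in atTop, ∫ t in (T / 2)..(4 * T), ‖RS ε G T t‖ ^ q ≤ C * T

/-- UIZ: uniform integrability of the mollified and resonated zeta function, small part -/
def BUIZ : Prop := ∀ η : ℝ, 0 < η → ∃ B0 : ℕ, ∀ b₀ : ℕ, B0 ≤ b₀ → ∃ ε0 : ℝ, 0 < ε0 ∧ ∀ ε : ℝ, 0 < ε → ε ≤ ε0 →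
  ∃ G0 : ℕ, ∀ G : ℕ, G0 ≤ G → ∃ η' : ℝ, 0 < η' ∧ ∀ᶠ T : ℝ in atTop, ∀ E : Set ℝ, MeasurableSet E →
    E ⊆ Set.Icc (T / 2) (4 * T) → volume E ≤ ENNReal.ofReal (η' * T) →
    ∫ t in E, ‖riemannZeta (hl t) * (M0 ε b₀ T t * RS ε G T t)‖ ^ 2 ≤ η * rh ε T ^ 9 * T

/-- SEL: most points have a zero on the critical line at distance `≤ K / log T` (Selberg) -/
def BSEL : Prop := ∀ e : ℝ, 0 < e → ∃ K : ℝ, 0 < K ∧ ∀ᶠ T : ℝ in atTop,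
  volume {t : ℝ | T / 2 ≤ t ∧ t ≤ 4 * T ∧ ∀ s ∈ ZL, K / Real.log T < |s - t|} ≤ ENNReal.ofReal (e * T)

/-- the points of `[T, (1+η)T]` in the gaps of more than `12/5` mean spacings -/
def EL (η T : ℝ) : Set ℝ := LongSet ZL (12 / 5 * (2 * Real.pi / Real.log T)) ∩ Set.Icc T ((1 + η) * T)

/-- FA: the mass of the mollified and resonated zeta function on the long gaps -/
def BFA : Prop := ∀ η : ℝ, 0 < η → η ≤ 1 → ∃ B0 : ℕ, ∀ b₀ : ℕ, B0 ≤ b₀ → ∃ ε0 : ℝ, 0 < ε0 ∧ ∀ ε : ℝ, 0 < ε → ε ≤ ε0 →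
  ∃ G0 : ℕ, ∀ G : ℕ, G0 ≤ G → ∃ c : ℝ, 0 < c ∧ c ≤ 1 ∧ ∀ᶠ T : ℝ in atTop,
    1 / 10 ^ 11 * rh ε T ^ 9 ≤
      ∫ t in EL η T, PW (c * T + 1 / 2) (t - (1 + η / 2) * T) * ‖riemannZeta (hl t) * (M0 ε b₀ T t * R0 ε G T t)‖ ^ 2

/-- the zeros of `[T, (1+η)T]` on the critical line that are followed by a gap of more than `12/5` mean spacings -/
def LG (η T : ℝ) : Set ℝ := {γ : ℝ | γ ∈ ZL ∧ T ≤ γ ∧ γ ≤ (1 + η) * T ∧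
  ∀ s ∈ ZL, γ < s → γ + 12 / 5 * (2 * Real.pi / Real.log T) ≤ s}

/-- the result -/
def BFIN : Prop := ∀ η : ℝ, 0 < η → ∃ c : ℝ, 0 < c ∧ ∀ᶠ T : ℝ in atTop, c * (T * Real.log T) ≤ (LG η T).ncard

end Pool.Agent.Helper25.HG
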