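import Pool.Agent.Helper25.HG.U8

/-!
# HG-U9: the block UI, assembly
-/

open Finset MeasureTheory Filter Topology Set

namespace Pool.Agent.Helper25.HG

open Pool.Agent.Helper69.HG Pool.Agent.Helper85.SV

lemma ev_rpow {K c e : ℝ} (he : 0 < e) (hc : 0 < c) : ∀ᶠ T : ℝ in atTop, K * T ^ (-e) ≤ c := by
  have h1 : Tendsto (fun T : ℝ => K * T ^ (-e)) atTop (𝓝 (K * 0)) := (tendsto_rpow_neg_atTop he).const_mul K
  rw [mul_zero] at h1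
  exact h1.eventually_le_const hc

lemma ev_log {K c : ℝ} (hc : 0 < c) : ∀ᶠ T : ℝ in atTop, K / Real.log T ^ 2 ≤ c := by
  have h2 : Tendsto (fun T : ℝ => Real.log T ^ 2) atTop atTop :=
    (tendsto_pow_atTop (two_ne_zero)).comp Real.tendsto_log_atTop
  exact (h2.const_div_atTop K).eventually_le_const hc

theorem ui_of (hA : AFE) (hTW : TW) (hB : BM4) (hR : RM4) (hD : RD) (hC : CS) : UI := by
  intro c₁ hc₁
  obtain ⟨C1, hC1, b1, h1⟩ := hTW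
  obtain ⟨b2, h2⟩ := hB
  obtain ⟨C3, T3, hC3, h3⟩ := hR
  obtain ⟨C4, T4, hC4, h4⟩ := hD
  obtain ⟨_, cc5, C5, hcc5, hC5, h5⟩ := hC
  have hK := KR_pos
  obtain ⟨c, hc⟩ : ∃ c : ℝ, c = c₁ / (80 * KR * (16 * C1 * C5)) := ⟨_, rfl⟩
  have hc0 : 0 < c := by rw [hc]; positivity
  obtain ⟨d, hd0, hd1, hdc, F, F₂, hF, hF₂, hFc, C6, T6, hC6, h6⟩ := hA c hc0
  obtain ⟨A0, hA0⟩ : ∃ x : ℝ, x = ∫ ξ : ℝ, ‖F ξ‖ := ⟨_, rfl⟩
  obtain ⟨A2, hA2⟩ : ∃ x : ℝ, x = ∫ ξ : ℝ, (1 + |ξ|) ^ 2 * ‖F ξ‖ := ⟨_, rfl⟩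
  obtain ⟨B2, hB2⟩ : ∃ x : ℝ, x = ∫ ξ : ℝ, (1 + |ξ|) ^ 2 * ‖F₂ ξ‖ := ⟨_, rfl⟩
  obtain ⟨W1, hW1⟩ : ∃ x : ℝ, x = ∫ ξ : ℝ, wF F ξ := ⟨_, rfl⟩
  obtain ⟨W4, hW4⟩ : ∃ x : ℝ, x = ∫ ξ : ℝ, wF F ξ * (1 + |ξ|) ^ 4 := ⟨_, rfl⟩
  have hA2n : 0 ≤ A2 := by rw [hA2]; exact integral_nonneg fun ξ => by positivity
  have hB2n : 0 ≤ B2 := by rw [hB2]; exact integral_nonneg fun ξ => by positivity
  have hA0n : 0 ≤ A0 := by rw [hA0]; exact integral_nonneg fun ξ => by positivity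
  have hW1n : 0 ≤ W1 := by rw [hW1]; exact integral_nonneg (wF_nonneg F)
  have hW4n : 0 ≤ W4 := by rw [hW4]; exact integral_nonneg fun ξ => mul_nonneg (wF_nonneg F ξ) (by positivity)
  refine ⟨max b1 b2, fun b hb => ?_⟩
  obtain ⟨ε1, hε1, h1⟩ := h1 b ((le_max_left _ _).trans hb)
  obtain ⟨ε2, hε2, h2⟩ := h2 b ((le_max_right _ _).trans hb)
  obtain ⟨εd, hεd⟩ : ∃ x : ℝ, x = d / (2 * (2 * b + 2)) := ⟨_, rfl⟩
  obtain ⟨εA, hεA⟩ : ∃ x : ℝ, x = 1 / (3 * A2 + 1) := ⟨_, rfl⟩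
  have hεd0 : 0 < εd := by rw [hεd]; positivity
  have hεA0 : 0 < εA := by rw [hεA]; positivity
  refine ⟨min (min ε1 ε2) (min 1 (min εd εA)), by positivity, fun ε hε0 hεle => ?_⟩
  have hεa : ε ≤ ε1 := hεle.trans ((min_le_left _ _).trans (min_le_left _ _))
  have hεb : ε ≤ ε2 := hεle.trans ((min_le_left _ _).trans (min_le_right _ _))
  have hεc : ε ≤ 1 := hεle.trans ((min_le_right _ _).trans (min_le_left _ _))
  have hεe : ε ≤ εd := hεle.trans ((min_le_right _ _).trans ((min_le_right _ _).trans (min_le_left _ _)))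
  have hεf : ε ≤ εA := hεle.trans ((min_le_right _ _).trans ((min_le_right _ _).trans (min_le_right _ _)))
  have hu : 2 * (ε * (2 * b + 2)) ≤ d := by
    rw [hεd, le_div_iff₀ (by positivity)] at hεe
    linarith
  have hA3 : 3 * ε * A2 ≤ 1 := by
    rw [hεA, le_div_iff₀ (by positivity)] at hεf
    nlinarith
  obtain ⟨T1, h1⟩ := h1 ε hε0 hεa
  obtain ⟨C2, T2, hC2, h2⟩ := h2 ε hε0 hεb
  obtain ⟨T5, h5⟩ := h5 ε hε0 hεc
  -- uniform integrability of the main part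
  obtain ⟨δ, hδ, hui⟩ := ui_main (C := max C2 C3) (ε' := c₁ / (80 * ε)) (hC2.le.trans (le_max_left _ _)) (by positivity)
  -- large `T`
  obtain ⟨K2, hK2⟩ : ∃ x : ℝ, x = 20 * (max C2 C3 + 28 * 2 ^ 160 * (C4 ^ 2 * (2 * Real.exp (36 * Ls))) ^ 2) := ⟨_, rfl⟩
  obtain ⟨K4, hK4⟩ : ∃ x : ℝ, x = 5 * C6 ^ 2 * (W1 * (KR * (C1 * B2 ^ 2 / ε)) * W4) := ⟨_, rfl⟩
  obtain ⟨K5, hK5⟩ : ∃ x : ℝ, x = 5 * (C6 ^ 2 * (16 * CR ^ 2)) := ⟨_, rfl⟩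
  have hev : ∀ᶠ T : ℝ in atTop, T1 ≤ T ∧ T2 ≤ T ∧ T3 ≤ T ∧ T4 ≤ T ∧ T5 ≤ T ∧ T6 ≤ T ∧ 1 < T ∧ 1 ≤ d * Real.log T ∧
      K2 * T ^ (-(1 / 160) : ℝ) ≤ c₁ / (8 * ε) ∧ K4 / Real.log T ^ 2 ≤ c₁ / (8 * ε) ∧
      K5 * T ^ (-(3 / 40) : ℝ) ≤ c₁ / (8 * ε) := by
    filter_upwards [eventually_ge_atTop T1, eventually_ge_atTop T2, eventually_ge_atTop T3, eventually_ge_atTop T4,
      eventually_ge_atTop T5, eventually_ge_atTop T6, eventually_gt_atTop 1,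
      (Real.tendsto_log_atTop.const_mul_atTop hd0).eventually_ge_atTop 1,
      ev_rpow (K := K2) (e := 1 / 160) (by norm_num) (show 0 < c₁ / (8 * ε) by positivity),
      ev_log (K := K4) (show 0 < c₁ / (8 * ε) by positivity),
      ev_rpow (K := K5) (e := 3 / 40) (by norm_num) (show 0 < c₁ / (8 * ε) by positivity)]
      with T a1 a2 a3 a4 a5 a6 a7 a8 a9 a10 a11
    exact ⟨a1, a2, a3, a4, a5, a6, a7, a8, a9, a10, a11⟩
  obtain ⟨T₀, hT₀⟩ := eventually_atTop.1 hev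
  refine ⟨δ, T₀, hδ, fun T hTT a ha G hGm hG hvol => ?_⟩
  obtain ⟨a1, a2, a3, a4, a5, a6, hT, a8, a9, a10, a11⟩ := hT₀ T hTT
  have hT0 : 0 < T := by linarith
  have hL : 0 < Real.log T := Real.log_pos hT
  obtain ⟨e, he, he', hRD⟩ := h4 T a4
  -- the main part
  have g1 : ∫ t in T..(2 * T), ‖Am T d a t‖ ^ 4 ≤ max C2 C3 * T := by
    refine (h2 T a2 a ha (cA T d) (cA_norm T d)).trans ?_
    exact mul_le_mul_of_nonneg_right (le_max_left _ _) hT0.le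
  have m1 := hui T hT0 (Am T d a) (Am_cont T d a) g1 (fun k i hi hs j₀ => by
    refine (h3 T a3 k i hi hs j₀).trans ?_
    exact mul_le_mul_of_nonneg_right (le_max_right _ _) hT0.le) G hG hvol
  have m2 := ms_AD hT (Am_cont T d a) (C₂ := max C2 C3) (hC2.le.trans (le_max_left _ _)) g1 he he'
  -- the edge part
  obtain ⟨S3, hS3⟩ : ∃ x : ℝ, x = 16 * C1 * C5 * c / ε := ⟨_, rfl⟩
  have hS3' : ∑ N ∈ Finset.Ioc ⌊T ^ (1 / 2 - d)⌋₊ ⌊T ^ (1 / 2 + 2 * d)⌋₊, ‖eN F T a 0 N‖ ^ 2 / N ≤ S3 := by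
    have q1 := (h1 T a1 a ha F hF.cont (hF.dec 2) 0).1 (T ^ (1 / 2 - d)) (T ^ (1 / 2 + 2 * d))
      (Real.rpow_le_rpow_of_exponent_le hT.le (by linarith)) (Real.rpow_le_rpow_of_exponent_le hT.le (by linarith))
      (by
        conv_rhs => rw [← Real.rpow_one T]
        exact Real.rpow_le_rpow_of_exponent_le hT.le (by linarith))
    refine q1.trans ?_
    have q2 := twist_small hF (by linarith) hε0 hεc (by rw [← hA2]; exact hA3)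
    have q3 : Real.log (T ^ (1 / 2 + 2 * d) / T ^ (1 / 2 - d)) = 3 * d * Real.log T := by
      rw [← Real.rpow_sub hT0, Real.log_rpow hT0]; ring
    have q4 : 0 ≤ ∫ ξ : ℝ, (1 + ε * |ξ + 0|) ^ 2 * ‖F ξ‖ := integral_nonneg fun ξ => by positivity
    have q5 : (∫ ξ : ℝ, (1 + ε * |ξ + 0|) ^ 2 * ‖F ξ‖) ^ 2 ≤ 4 * A0 ^ 2 := by
      rw [← hA0] at q2
      calc _ ≤ (2 * A0) ^ 2 := pow_le_pow_left₀ q4 q2 2
        _ = 4 * A0 ^ 2 := by ring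
    have q6 := (h5 T a5).2
    have hV0 : 0 < Vp T ε := by
      have := (h5 T a5).1
      have h7 : 0 < cc5 / ε := by positivity
      by_contra hcon
      rw [not_lt] at hcon
      nlinarith
    rw [q3]
    push_cast at q5 ⊢
    calc C1 * (∫ ξ : ℝ, (1 + ε * |ξ + 0|) ^ 2 * ‖F ξ‖) ^ 2 * Vp T ε * (3 * d * Real.log T + 1)
        ≤ C1 * (4 * A0 ^ 2) * Vp T ε * (4 * (d * Real.log T)) := by
          refine mul_le_mul ?_ (by linarith) (by positivity) (by positivity)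
          exact mul_le_mul_of_nonneg_right (mul_le_mul_of_nonneg_left (by exact_mod_cast q5) hC1.le) hV0.le
      _ = 16 * C1 * (d * A0 ^ 2) * (Real.log T * Vp T ε) := by ring
      _ ≤ 16 * C1 * c * (C5 / ε) := by
          refine mul_le_mul ?_ q6 (by positivity) (by positivity)
          exact mul_le_mul_of_nonneg_left (by rw [hA0]; exact hFc) (by positivity)
      _ = S3 := by rw [hS3]; ring
  have m3 := ms_edge hd0 hd1 hF ha hT hε0 hu hS3'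
  -- the second cut
  have hS4 : ∀ ξ, ∑ N ∈ Finset.Icc 1 ⌊T⌋₊, ‖eN F₂ T a ξ N‖ ^ 2 / N ≤ (C1 * B2 ^ 2 / ε) * (1 + |ξ|) ^ 4 := by
    intro ξ
    have q1 := (h1 T a1 a ha F₂ hF₂.cont (hF₂.dec 2) ξ).2
    refine q1.trans ?_
    have q2 := twist_le hF₂ hε0 hεc ξ
    have q4 : 0 ≤ ∫ ξ' : ℝ, (1 + ε * |ξ' + ξ|) ^ 2 * ‖F₂ ξ'‖ := integral_nonneg fun ξ' => by positivity
    calc C1 * (∫ ξ' : ℝ, (1 + ε * |ξ' + ξ|) ^ 2 * ‖F₂ ξ'‖) ^ 2 / ε ≤ C1 * ((1 + |ξ|) ^ 2 * B2) ^ 2 / ε := by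
          rw [hB2]
          gcongr
      _ = (C1 * B2 ^ 2 / ε) * (1 + |ξ|) ^ 4 := by ring
  have m4 := ms_J hF hF₂ ha hT hε0 (by linarith) (S := C1 * B2 ^ 2 / ε) (by positivity) hS4
  rw [← hW1, ← hW4] at m4
  -- together
  have hfin := ui_one hd0 hd1 hF hF₂ ha hT hε0 hu hC6.le (h6 T a6) hRD hGm hG m1 m2 m3 m4 (by positivity)
    (by
      have : 0 ≤ max C2 C3 := hC2.le.trans (le_max_left _ _)
      positivity) (by rw [hS3]; positivity) (by positivity)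
  refine hfin.trans ?_
  have r1 : 20 * (c₁ / (80 * ε) * T) = c₁ / (4 * ε) * T := by field_simp; norm_num
  have r2 : 20 * ((max C2 C3 + 28 * 2 ^ 160 * (C4 ^ 2 * (2 * Real.exp (36 * Ls))) ^ 2) * T ^ (-(1 / 160) : ℝ) * T) ≤
      c₁ / (8 * ε) * T := by
    have : 20 * ((max C2 C3 + 28 * 2 ^ 160 * (C4 ^ 2 * (2 * Real.exp (36 * Ls))) ^ 2) * T ^ (-(1 / 160) : ℝ) * T) =
        K2 * T ^ (-(1 / 160) : ℝ) * T := by rw [hK2]; ring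
    rw [this]
    exact mul_le_mul_of_nonneg_right a9 hT0.le
  have r3 : 20 * (KR * S3 * T) = c₁ / (4 * ε) * T := by
    rw [hS3, hc]
    field_simp
    ring
  have r4 : 5 * (C6 ^ 2 * T ^ (-(1 / 2) : ℝ) * (16 * CR ^ 2 * T ^ (17 / 40 : ℝ))) * T ≤ c₁ / (8 * ε) * T := by
    have e1 : T ^ (-(1 / 2) : ℝ) * T ^ (17 / 40 : ℝ) = T ^ (-(3 / 40) : ℝ) := by
      rw [← Real.rpow_add hT0]; norm_num
    have : 5 * (C6 ^ 2 * T ^ (-(1 / 2) : ℝ) * (16 * CR ^ 2 * T ^ (17 / 40 : ℝ))) * T =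
        K5 * (T ^ (-(1 / 2) : ℝ) * T ^ (17 / 40 : ℝ)) * T := by rw [hK5]; ring
    rw [this, e1]
    exact mul_le_mul_of_nonneg_right a11 hT0.le
  have r5 : 5 * (C6 / Real.log T) ^ 2 * (W1 * (KR * (C1 * B2 ^ 2 / ε) * T) * W4) ≤ c₁ / (8 * ε) * T := by
    have : 5 * (C6 / Real.log T) ^ 2 * (W1 * (KR * (C1 * B2 ^ 2 / ε) * T) * W4) = K4 / Real.log T ^ 2 * T := by
      rw [hK4, div_pow]; ring
    rw [this]
    exact mul_le_mul_of_nonneg_right a10 hT0.le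
  have r6 : c₁ / (4 * ε) * T + (c₁ / (8 * ε) * T + (c₁ / (4 * ε) * T + (c₁ / (8 * ε) * T + c₁ / (8 * ε) * T))) =
      7 / 8 * (c₁ * T / ε) := by field_simp; ring
  have r7 : 0 ≤ c₁ * T / ε := by positivity
  linarith

end Pool.Agent.Helper25.HG
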