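import Pool.Agent.Helper65.HG.CSm
import Pool.Agent.Helper49.HG.Ex
import Pool.Agent.Helper49.HG.Nf
import Pool.Agent.Helper96.HG.SV
import Pool.Agent.Helper5.HG.Sb
import Pool.Agent.Helper33.HG.Tw
import Pool.Agent.Helper9.HL.Afe
import Pool.Agent.Helper66.HG.Fin
import Pool.Agent.Helper54.HG.RD
import Pool.Agent.Helper51.HG.RS
import Pool.Agent.Helper69.HG.Num
import Pool.Agent.Helper57.HL.Ff
import Pool.Agent.Helper25.HG.U9
import Pool.Agent.Helper99.HG.Fin

/-!
# Hall gaps: all the blocks together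
-/

open Pool.Agent.Helper69.HG

namespace Pool.Agent.Helper25.HG

theorem hallGaps : HallGaps := by
  have hCS : CS := Pool.Agent.Helper65.HG.cs
  have hEX : EX := Pool.Agent.Helper49.HG.ex
  have hSV : SV := Pool.Agent.Helper96.HG.sv
  have hSB : SB := HG5.sb
  have hAFE : AFE := HL9.afe
  have hTW : TW := Pool.Agent.Helper33.HG.tw hSB
  have hBM4 : BM4 := Pool.Agent.Helper66.HG.bm4
  have hRM4 : RM4 := Pool.Agent.Helper66.HG.rm4_block
  have hRD : RD := Pool.Agent.Helper54.HG.rd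
  have hRS : RS := Pool.Agent.Helper51.HG.rs
  have hNUM : NUM := Pool.Agent.Helper69.HG.num
  have hFA : FA := Pool.Agent.Helper57.HL.fa_of hCS hSV hRS hNUM
  have hUI : UI := Pool.Agent.Helper25.HG.ui_of hAFE hTW hBM4 hRM4 hRD hCS
  have hNG : NG := Pool.Agent.Helper49.HG.ng hCS hSV
  exact Pool.Agent.Helper99.HGF.fin_of hFA hUI hNG hEX

end Pool.Agent.Helper25.HG
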