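import Pool.Agent.Helper69.HG.Stm
import Pool.Agent.Helper66.HG.MVb
import Pool.Agent.Helper66.HG.EP

/-!
# HG-U1: Dirichlet polynomials: mean value, products
-/

open Finset MeasureTheory Filter Topology Set

namespace Pool.Agent.Helper25.HG

open Pool.Agent.Helper69.HG

lemma DP_eq (X : ℕ) (c : ℕ → ℂ) (t : ℝ) :
    DP X c t = ∑ n ∈ Finset.Icc 1 X, c n * (n : ℂ) ^ (-((1 / 2 : ℂ) + t * Complex.I)) := by
  unfold DP
  simp only [mul_comm Complex.I]

lemma continuous_DP (X : ℕ) (c : ℕ → ℂ) : Continuous (DP X c) := by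
  have e : DP X c = fun t : ℝ => ∑ n ∈ Finset.Icc 1 X, c n * (((1 / Real.sqrt n : ℝ) : ℂ) *
      Complex.exp (-(Real.log n * t : ℝ) * Complex.I)) := by
    funext t
    rw [DP_eq]
    refine Finset.sum_congr rfl fun n hn => ?_
    rw [Pool.Agent.Helper66.HG.cpow_half (Finset.mem_Icc.1 hn).1]
  rw [e]
  refine continuous_finset_sum _ fun n _ => ?_
  fun_prop

lemma lint_of_cont {f : ℝ → ℝ} (hf : Continuous f) (h0 : ∀ t, 0 ≤ f t) {T C : ℝ}
    (h : ∫ t in Set.Icc T (2 * T), f t ≤ C) :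
    ∫⁻ t in Set.Icc T (2 * T), ENNReal.ofReal (f t) ≤ ENNReal.ofReal C := by
  rw [← ofReal_integral_eq_lintegral_ofReal]
  · exact ENNReal.ofReal_le_ofReal h
  · exact hf.continuousOn.integrableOn_compact isCompact_Icc
  · exact Filter.Eventually.of_forall h0

lemma enorm_pow_eq (z : ℂ) (k : ℕ) : ‖z‖ₑ ^ k = ENNReal.ofReal (‖z‖ ^ k) := by
  rw [ENNReal.ofReal_pow (norm_nonneg _), ofReal_norm]

/-- mean value theorem -/
theorem dp_mv {X : ℕ} (c : ℕ → ℂ) {T : ℝ} (hT : 0 < T) (hX : (X : ℝ) ≤ T) :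
    ∫⁻ t in Set.Icc T (2 * T), ‖DP X c t‖ₑ ^ 2 ≤ ENNReal.ofReal (28 * T * ∑ n ∈ Finset.Icc 1 X, ‖c n‖ ^ 2 / n) := by
  have h := Pool.Agent.Helper66.HG.mv_int c hT hX (3 / 2 * T)
  have hc : Continuous fun t => ‖DP X c t‖ ^ 2 := ((continuous_DP X c).norm).pow 2
  simp_rw [enorm_pow_eq]
  refine lint_of_cont hc (fun t => by positivity) ?_
  simp_rw [DP_eq] at hc ⊢
  refine le_trans (setIntegral_mono_set ?_ ?_ ?_) h
  · exact hc.continuousOn.integrableOn_compact isCompact_Icc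
  · exact Filter.Eventually.of_forall fun t => by positivity
  · refine HasSubset.Subset.eventuallyLE (Set.Icc_subset_Icc (by linarith) (by linarith))

/-- Dirichlet convolution of complex coefficients -/
noncomputable def cc (a r : ℕ → ℂ) (n : ℕ) : ℂ := ∑ d ∈ n.divisors, a d * r (n / d)

lemma cc_anti (a r : ℕ → ℂ) (n : ℕ) : cc a r n = ∑ x ∈ n.divisorsAntidiagonal, a x.1 * r x.2 := by
  unfold cc
  rw [Nat.sum_divisorsAntidiagonal (fun x y => a x * r y)]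

lemma DP_mul {X Y Z : ℕ} {a r : ℕ → ℂ} (ha : ∀ n, X < n → a n = 0) (hr : ∀ n, Y < n → r n = 0) (hZ : X * Y ≤ Z)
    (t : ℝ) : DP X a t * DP Y r t = DP Z (cc a r) t := by
  classical
  unfold DP
  rw [Finset.sum_mul_sum, ← Finset.sum_product']
  have hmap : ∀ x ∈ Finset.Icc 1 X ×ˢ Finset.Icc 1 Y, x.1 * x.2 ∈ Finset.Icc 1 Z := by
    intro x hx
    obtain ⟨h1, h2⟩ := Finset.mem_product.1 hx
    obtain ⟨h3, h4⟩ := Finset.mem_Icc.1 h1
    obtain ⟨h5, h6⟩ := Finset.mem_Icc.1 h2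
    exact Finset.mem_Icc.2 ⟨Nat.mul_pos h3 h5, (Nat.mul_le_mul h4 h6).trans hZ⟩
  rw [← Finset.sum_fiberwise_of_maps_to hmap]
  refine Finset.sum_congr rfl fun N hN => ?_
  have hN1 : 1 ≤ N := (Finset.mem_Icc.1 hN).1
  rw [cc_anti, Finset.sum_mul]
  refine Finset.sum_subset_zero_on_sdiff ?_ ?_ ?_
  · intro x hx
    obtain ⟨h1, h2⟩ := Finset.mem_filter.1 hx
    exact Nat.mem_divisorsAntidiagonal.2 ⟨h2, by omega⟩
  · intro x hx
    obtain ⟨h1, h2⟩ := Finset.mem_sdiff.1 hx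
    obtain ⟨h3, h4⟩ := Nat.mem_divisorsAntidiagonal.1 h1
    by_cases hX : x.1 ≤ X
    · by_cases hY : x.2 ≤ Y
      · exfalso
        apply h2
        have h5 : x.1 ≠ 0 := by rintro h; rw [h, zero_mul] at h3; omega
        have h6 : x.2 ≠ 0 := by rintro h; rw [h, mul_zero] at h3; omega
        exact Finset.mem_filter.2 ⟨Finset.mem_product.2 ⟨Finset.mem_Icc.2 ⟨by omega, hX⟩,
          Finset.mem_Icc.2 ⟨by omega, hY⟩⟩, h3⟩
      · rw [hr x.2 (by omega), mul_zero, zero_mul]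
    · rw [ha x.1 (by omega), zero_mul, zero_mul]
  · intro x hx
    obtain ⟨h1, h2⟩ := Finset.mem_filter.1 hx
    rw [← h2, Nat.cast_mul, Complex.natCast_mul_natCast_cpow]
    ring

lemma DP_trunc {X Z : ℕ} {c : ℕ → ℂ} (hc : ∀ n, X < n → c n = 0) (hZ : X ≤ Z) (t : ℝ) : DP X c t = DP Z c t := by
  unfold DP
  refine Finset.sum_subset (Finset.Icc_subset_Icc le_rfl hZ) fun n h1 h2 => ?_
  rw [Finset.mem_Icc] at h1 h2
  rw [hc n (by omega), zero_mul]

lemma DP_congr {X : ℕ} {c c' : ℕ → ℂ} (h : ∀ n, 1 ≤ n → n ≤ X → c n = c' n) (t : ℝ) : DP X c t = DP X c' t := by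
  unfold DP
  refine Finset.sum_congr rfl fun n hn => ?_
  rw [h n (Finset.mem_Icc.1 hn).1 (Finset.mem_Icc.1 hn).2]

lemma DP_add (X : ℕ) (c c' : ℕ → ℂ) (t : ℝ) : DP X (fun n => c n + c' n) t = DP X c t + DP X c' t := by
  unfold DP
  rw [← Finset.sum_add_distrib]
  exact Finset.sum_congr rfl fun n _ => by ring

end Pool.Agent.Helper25.HG
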