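import Pool.Agent.Helper25.HG.U2
import Pool.Agent.Helper85.SV.Main

/-!
# HG-U3: sums over the numbers with prime factors of index `2..32`
-/

open Finset MeasureTheory Filter Topology Set

namespace Pool.Agent.Helper25.HG

open Pool.Agent.Helper69.HG Pool.Agent.Helper85.SV

/-- all prime factors have index in `2..32` -/
def Rg2 (T : ℝ) (n : ℕ) : Prop := n ≠ 0 ∧ ∀ p ∈ n.primeFactors, 2 ≤ ixp T p ∧ ixp T p ≤ 32

lemma Rg2.rg {T : ℝ} {n : ℕ} (h : Rg2 T n) : Rg T n := ⟨h.1, fun p hp => (h.2 p hp).1⟩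

lemma mert32 {T : ℝ} (hT : 1 < T) {P : Finset ℕ} (hP : ∀ p ∈ P, p.Prime ∧ 2 ≤ ixp T p ∧ ixp T p ≤ 32) :
    ∑ p ∈ P, 1 / (p : ℝ) ≤ 6 * Ls := by
  classical
  have hL : 0 < Real.log T := Real.log_pos hT
  set Z : ℝ := Real.log T / 4 with hZ
  have hcov : P ⊆ (Finset.range 6).biUnion (blk P Z) := by
    intro p hp
    obtain ⟨hpp, h1, h2⟩ := hP p hp
    have hp0 : (0:ℝ) < p := by exact_mod_cast hpp.pos
    have h3 := lt_of_ixp hT hpp.pos h1
    have h4 := le_of_ixp hT hpp.pos (p := p)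
    have hT0 : 0 < T := by linarith
    have h5 : Real.log T / 160 < Real.log p := by
      have := Real.log_lt_log (by positivity) h3
      rw [Real.log_rpow hT0] at this
      linarith
    have h6 : Real.log p ≤ Real.log T / 5 := by
      have := Real.log_le_log hp0 h4
      rw [Real.log_rpow hT0] at this
      have h7 : ((ixp T p : ℕ) : ℝ) ≤ 32 := by exact_mod_cast h2
      nlinarith
    rw [Finset.mem_biUnion]
    have key : ∀ j : ℕ, j < 6 → 2 ^ j * Real.log p < Z → Z ≤ 2 ^ (j + 1) * Real.log p →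
        ∃ a ∈ Finset.range 6, p ∈ blk P Z a := fun j hj ha hb =>
      ⟨j, Finset.mem_range.2 hj, Finset.mem_filter.2 ⟨hp, ha, hb⟩⟩
    by_cases c0 : Z ≤ 2 ^ 1 * Real.log p
    · exact key 0 (by norm_num) (by norm_num; linarith) c0
    by_cases c1 : Z ≤ 2 ^ 2 * Real.log p
    · exact key 1 (by norm_num) (not_le.1 c0) c1
    by_cases c2 : Z ≤ 2 ^ 3 * Real.log p
    · exact key 2 (by norm_num) (not_le.1 c1) c2
    by_cases c3 : Z ≤ 2 ^ 4 * Real.log p
    · exact key 3 (by norm_num) (not_le.1 c2) c3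
    by_cases c4 : Z ≤ 2 ^ 5 * Real.log p
    · exact key 4 (by norm_num) (not_le.1 c3) c4
    · exact key 5 (by norm_num) (not_le.1 c4) (by norm_num; linarith)
  calc ∑ p ∈ P, 1 / (p : ℝ) ≤ ∑ p ∈ (Finset.range 6).biUnion (blk P Z), 1 / (p : ℝ) :=
        Finset.sum_le_sum_of_subset_of_nonneg hcov fun _ _ _ => by positivity
    _ = ∑ j ∈ Finset.range 6, ∑ p ∈ blk P Z j, 1 / (p : ℝ) := by
        refine Finset.sum_biUnion fun i _ j _ hij => blk_disj P Z hij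
    _ ≤ ∑ _j ∈ Finset.range 6, Ls := Finset.sum_le_sum fun j _ => blk_sum_le (fun p hp => (hP p hp).1) Z j
    _ = 6 * Ls := by simp

open Classical in
lemma sum_rg2 {T : ℝ} (hT : 1 < T) (X : ℕ) :
    ∑ n ∈ (Finset.Icc 1 X).filter (Rg2 T), 1 / (n : ℝ) ≤ Real.exp (36 * Ls) := by
  set W : ℕ → ℝ := fun p => if 2 ≤ ixp T p ∧ ixp T p ≤ 32 then 1 else 0 with hW
  have hW0 : ∀ p, 0 ≤ W p := fun p => by simp only [hW]; split_ifs <;> norm_num
  have h1 := Pool.Agent.Helper66.HG.euler_le hW0 X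
  have h2 : ∑ n ∈ (Finset.Icc 1 X).filter (Rg2 T), 1 / (n : ℝ) ≤ ∑ n ∈ Finset.Icc 1 X, Pool.Agent.Helper66.HG.fW W n := by
    have hnn : ∀ n, 0 ≤ Pool.Agent.Helper66.HG.fW W n := fun n => by
      unfold Pool.Agent.Helper66.HG.fW
      have := Finset.prod_nonneg (s := n.primeFactors) (f := W) fun p _ => hW0 p
      positivity
    refine le_trans (Finset.sum_le_sum fun n hn => ?_)
      (Finset.sum_le_sum_of_subset_of_nonneg (Finset.filter_subset (Rg2 T) _) fun n _ _ => hnn n)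
    obtain ⟨h3, h4⟩ := Finset.mem_filter.1 hn
    have h5 : ∏ p ∈ n.primeFactors, W p = 1 := by
      refine Finset.prod_eq_one fun p hp => ?_
      simp only [hW]
      rw [if_pos (h4.2 p hp)]
    unfold Pool.Agent.Helper66.HG.fW
    rw [h5, mul_one]
    have h6 : (1:ℝ) ≤ n.divisors.card := by
      have : 0 < n.divisors.card := Finset.card_pos.2 ⟨1, Nat.one_mem_divisors.2 h4.1⟩
      exact_mod_cast this
    exact div_le_div_of_nonneg_right h6 (Nat.cast_nonneg _)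
  refine h2.trans (h1.trans (Real.exp_le_exp.2 ?_))
  have h3 : ∑ p ∈ (Finset.Icc 1 X).filter Nat.Prime, W p / p =
      ∑ p ∈ ((Finset.Icc 1 X).filter Nat.Prime).filter (fun p => 2 ≤ ixp T p ∧ ixp T p ≤ 32), 1 / (p : ℝ) := by
    conv_rhs => rw [Finset.sum_filter]
    refine Finset.sum_congr rfl fun p _ => ?_
    simp only [hW]
    split_ifs <;> simp
  rw [h3]
  have h4 := mert32 hT (P := ((Finset.Icc 1 X).filter Nat.Prime).filter (fun p => 2 ≤ ixp T p ∧ ixp T p ≤ 32))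
    (fun p hp => by
      obtain ⟨h5, h6⟩ := Finset.mem_filter.1 hp
      exact ⟨(Finset.mem_filter.1 h5).2, h6⟩)
  linarith

lemma sum_inv_sq {y : ℝ} (hy : 1 ≤ y) (S : Finset ℕ) (hS : ∀ n ∈ S, y < (n : ℝ)) : ∑ n ∈ S, 1 / (n : ℝ) ^ 2 ≤ 2 / y := by
  have hy0 : 0 < y := by linarith
  set m : ℕ := ⌊y⌋₊ with hm
  have hm1 : 1 ≤ m := by rw [hm]; exact Nat.floor_pos.2 hy
  have hm1' : (1:ℝ) ≤ m := by exact_mod_cast hm1
  have hmy : y < m + 1 := Nat.lt_floor_add_one y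
  obtain ⟨N, hN⟩ : ∃ N : ℕ, ∀ n ∈ S, n < N := ⟨S.sup id + 1, fun n hn => Nat.lt_succ_of_le (Finset.le_sup (f := id) hn)⟩
  have hSm : ∀ n ∈ S, m + 1 ≤ n := fun n hn => Nat.succ_le_of_lt (Nat.floor_lt hy0.le |>.2 (hS n hn))
  have h1 : ∑ n ∈ S, 1 / (n : ℝ) ^ 2 ≤ ∑ n ∈ Finset.Ico (m + 1) (max N (m + 1)), 1 / (n : ℝ) ^ 2 := by
    refine Finset.sum_le_sum_of_subset_of_nonneg (fun n hn => ?_) fun _ _ _ => by positivity
    exact Finset.mem_Ico.2 ⟨hSm n hn, lt_of_lt_of_le (hN n hn) (le_max_left _ _)⟩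
  have h2 : ∀ M : ℕ, m + 1 ≤ M → ∑ n ∈ Finset.Ico (m + 1) M, 1 / (n : ℝ) ^ 2 ≤ 1 / m - 1 / (M - 1 : ℝ) := by
    intro M hM
    induction M, hM using Nat.le_induction with
    | base => simp
    | succ M hM ih =>
      rw [Finset.sum_Ico_succ_top hM]
      have hM1 : (m:ℝ) + 1 ≤ M := by exact_mod_cast hM
      have hM0 : (0:ℝ) < M - 1 := by linarith
      have hM2 : (0:ℝ) < M := by linarith
      have h3 : 1 / (M:ℝ) ^ 2 ≤ 1 / (M - 1 : ℝ) - 1 / M := by
        rw [div_sub_div _ _ hM0.ne' hM2.ne', div_le_div_iff₀ (by positivity) (by positivity)]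
        nlinarith
      push_cast
      have e : (M:ℝ) + 1 - 1 = M := by ring
      rw [e]
      linarith
  have h3 := h2 (max N (m + 1)) (le_max_right _ _)
  have h4 : (0:ℝ) ≤ 1 / ((max N (m + 1) : ℕ) - 1 : ℝ) := by
    have : ((m + 1 : ℕ) : ℝ) ≤ ((max N (m + 1) : ℕ) : ℝ) := by exact_mod_cast le_max_right _ _
    push_cast at this
    apply div_nonneg zero_le_one
    push_cast
    linarith
  have h5 : 1 / (m:ℝ) ≤ 2 / y := by
    rw [div_le_div_iff₀ (by linarith) hy0]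
    linarith
  linarith

open Classical in
/-- the numbers that are not squarefree -/
lemma sum_rg2_nsq {T : ℝ} (hT : 1 < T) (X : ℕ) :
    ∑ n ∈ (Finset.Icc 1 X).filter (fun n => Rg2 T n ∧ ¬ Squarefree n), 1 / (n : ℝ) ≤
      2 * T ^ (-(1 / 160) : ℝ) * Real.exp (36 * Ls) := by
  have hT0 : 0 < T := by linarith
  set P := (Finset.Icc 1 X).filter (fun p => p.Prime ∧ 2 ≤ ixp T p) with hP
  set M := (Finset.Icc 1 X).filter (Rg2 T) with hM
  have h1 : ∑ n ∈ (Finset.Icc 1 X).filter (fun n => Rg2 T n ∧ ¬ Squarefree n), 1 / (n : ℝ) ≤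
      ∑ x ∈ P ×ˢ M, 1 / (x.1 : ℝ) ^ 2 * (1 / (x.2 : ℝ)) := by
    have hsub : (Finset.Icc 1 X).filter (fun n => Rg2 T n ∧ ¬ Squarefree n) ⊆
        (P ×ˢ M).image (fun x => x.1 ^ 2 * x.2) := by
      intro n hn
      obtain ⟨h2, h3, h4⟩ := Finset.mem_filter.1 hn
      obtain ⟨h5, h6⟩ := Finset.mem_Icc.1 h2
      rw [Nat.squarefree_iff_prime_squarefree] at h4
      push Not at h4
      obtain ⟨p, hp, hpn⟩ := h4
      obtain ⟨m, hm⟩ := hpn
      have hm0 : m ≠ 0 := by rintro rfl; rw [mul_zero] at hm; omega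
      have hpn' : p ∈ n.primeFactors := Nat.mem_primeFactors.2 ⟨hp, ⟨p * m, by rw [hm]; ring⟩, by omega⟩
      have hmn : m ≤ n := by
        rw [hm]; exact Nat.le_mul_of_pos_left _ (Nat.mul_pos hp.pos hp.pos)
      have hpn2 : p ≤ n := Nat.le_of_dvd (by omega) (Nat.dvd_of_mem_primeFactors hpn')
      refine Finset.mem_image.2 ⟨(p, m), Finset.mem_product.2 ⟨?_, ?_⟩, by rw [hm]; ring⟩
      · exact Finset.mem_filter.2 ⟨Finset.mem_Icc.2 ⟨hp.one_le, by omega⟩, hp, (h3.2 p hpn').1⟩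
      · refine Finset.mem_filter.2 ⟨Finset.mem_Icc.2 ⟨by omega, by omega⟩, hm0, fun q hq => h3.2 q ?_⟩
        exact Nat.primeFactors_mono ⟨p * p, by rw [hm]; ring⟩ (by omega) hq
    calc ∑ n ∈ (Finset.Icc 1 X).filter (fun n => Rg2 T n ∧ ¬ Squarefree n), 1 / (n : ℝ)
        ≤ ∑ n ∈ ((P ×ˢ M).image (fun x => x.1 ^ 2 * x.2) : Finset ℕ), 1 / (n : ℝ) :=
          Finset.sum_le_sum_of_subset_of_nonneg hsub fun _ _ _ => by positivity
      _ ≤ ∑ x ∈ P ×ˢ M, 1 / ((x.1 ^ 2 * x.2 : ℕ) : ℝ) :=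
          Finset.sum_image_le_of_nonneg (f := fun n : ℕ => 1 / (n : ℝ)) (g := fun x : ℕ × ℕ => x.1 ^ 2 * x.2)
            fun _ _ => by positivity
      _ = _ := by
          refine Finset.sum_congr rfl fun x _ => ?_
          push_cast
          rw [one_div_mul_one_div]
  refine h1.trans ?_
  rw [Finset.sum_product' P M (fun a b : ℕ => 1 / (a : ℝ) ^ 2 * (1 / (b : ℝ))), ← Finset.sum_mul_sum]
  have hy : 1 ≤ T ^ (1 / 160 : ℝ) := Real.one_le_rpow hT.le (by norm_num)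
  have h2 := sum_inv_sq hy P (fun p hp => by
    obtain ⟨_, h3, h4⟩ := Finset.mem_filter.1 hp
    exact lt_of_ixp hT h3.pos h4)
  have h3 : 2 / T ^ (1 / 160 : ℝ) = 2 * T ^ (-(1 / 160) : ℝ) := by
    rw [Real.rpow_neg hT0.le, div_eq_mul_inv]
  rw [h3] at h2
  exact mul_le_mul h2 (sum_rg2 hT X) (Finset.sum_nonneg fun _ _ => by positivity) (by positivity)

/-! ### the resonator -/

lemma Qz_zero {N : ℕ} (h : 64 < N) : Qz N = 0 := by
  unfold Qz
  rw [List.getD_eq_default]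
  simp only [QL, List.length_cons, List.length_nil]
  omega

lemma Qz_abs (N : ℕ) : |(Qz N : ℝ)| ≤ 626753 := by
  by_cases h : 64 < N
  · rw [Qz_zero h]; norm_num
  · have h1 : ∀ M : ℕ, M < 65 → |Qz M| ≤ 626753 := by decide +kernel
    have := h1 N (by omega)
    rw [← Int.cast_abs]
    exact_mod_cast this

/-- the bound of the coefficients of the resonator -/
noncomputable def CR : ℝ := (8 / 5) ^ 32 * 626753

lemma rr_rg {T : ℝ} {n : ℕ} (h : rr T n ≠ 0) : Rg2 T n ∧ Squarefree n ∧ ix T n ≤ 64 := by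
  unfold rr at h
  split_ifs at h with h1
  · refine ⟨⟨h1.1.ne_zero, h1.2⟩, h1.1, ?_⟩
    by_contra hcon
    rw [not_le] at hcon
    rw [Qz_zero hcon] at h
    simp at h
  · exact absurd rfl h

lemma rr_abs {T : ℝ} (n : ℕ) : |rr T n| ≤ CR := by
  by_cases h : rr T n = 0
  · rw [h, abs_zero]; unfold CR; positivity
  · obtain ⟨h1, h2, h3⟩ := rr_rg h
    have h4 : n.primeFactors.card ≤ 32 := by
      have : 2 * n.primeFactors.card ≤ ix T n := by
        unfold ix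
        rw [mul_comm, ← smul_eq_mul, ← Finset.sum_const]
        exact Finset.sum_le_sum fun p hp => (h1.2 p hp).1
      omega
    unfold rr
    rw [if_pos ⟨h2, h1.2⟩, abs_mul, abs_of_nonneg (by unfold kp; positivity)]
    unfold CR
    refine mul_le_mul ?_ (Qz_abs _) (abs_nonneg _) (by positivity)
    unfold kp
    exact pow_le_pow_right₀ (by norm_num) h4

lemma rr_len {T : ℝ} (hT : 1 < T) {n : ℕ} (h : rr T n ≠ 0) : (n : ℝ) ≤ T ^ (2 / 5 : ℝ) := by
  obtain ⟨h1, h2, h3⟩ := rr_rg h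
  have hT0 : 0 < T := by linarith
  calc (n : ℝ) = ∏ p ∈ n.primeFactors, (p : ℝ) := by
        rw [← Nat.cast_prod, Nat.prod_primeFactors_of_squarefree h2]
    _ ≤ ∏ p ∈ n.primeFactors, T ^ ((ixp T p : ℝ) / 160) :=
        Finset.prod_le_prod (fun _ _ => by positivity) fun p hp =>
          le_of_ixp hT (Nat.pos_of_mem_primeFactors hp)
    _ = T ^ (((ix T n : ℕ) : ℝ) / 160) := by
        rw [← Real.rpow_sum_of_pos hT0, ← Finset.sum_div]
        unfold ix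
        push_cast
        rfl
    _ ≤ T ^ (2 / 5 : ℝ) := by
        apply Real.rpow_le_rpow_of_exponent_le hT.le
        have : ((ix T n : ℕ) : ℝ) ≤ 64 := by exact_mod_cast h3
        linarith

/-- mean square of the coefficients of the resonator -/
lemma sum_rr {T : ℝ} (hT : 1 < T) (X : ℕ) :
    ∑ h ∈ Finset.Icc 1 X, ‖(rr T h : ℂ)‖ ^ 2 / h ≤ CR ^ 2 * Real.exp (36 * Ls) := by
  classical
  calc ∑ h ∈ Finset.Icc 1 X, ‖(rr T h : ℂ)‖ ^ 2 / h ≤ ∑ h ∈ Finset.Icc 1 X, (if Rg2 T h then CR ^ 2 * (1 / (h : ℝ)) else 0) := by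
        refine Finset.sum_le_sum fun h _ => ?_
        rw [Complex.norm_real, Real.norm_eq_abs]
        split_ifs with h1
        · rw [mul_one_div]
          exact div_le_div_of_nonneg_right (pow_le_pow_left₀ (abs_nonneg _) (rr_abs h) 2) (Nat.cast_nonneg _)
        · have : rr T h = 0 := by
            by_contra hcon
            exact h1 (rr_rg hcon).1
          rw [this]; simp
    _ = CR ^ 2 * ∑ h ∈ (Finset.Icc 1 X).filter (Rg2 T), 1 / (h : ℝ) := by
        rw [Finset.mul_sum, Finset.sum_filter]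
    _ ≤ CR ^ 2 * Real.exp (36 * Ls) := mul_le_mul_of_nonneg_left (sum_rg2 hT X) (sq_nonneg _)

/-- mean square of the coefficients of the non-squarefree part -/
lemma sum_nsq {T : ℝ} (hT : 1 < T) (X : ℕ) {e : ℕ → ℂ} {C : ℝ} (he : ∀ n, ‖e n‖ ≤ C)
    (he' : ∀ n, e n ≠ 0 → n ≠ 0 ∧ ¬ Squarefree n ∧ ∀ p ∈ n.primeFactors, 2 ≤ ixp T p ∧ ixp T p ≤ 32) :
    ∑ h ∈ Finset.Icc 1 X, ‖e h‖ ^ 2 / h ≤ C ^ 2 * (2 * T ^ (-(1 / 160) : ℝ) * Real.exp (36 * Ls)) := by
  classical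
  calc ∑ h ∈ Finset.Icc 1 X, ‖e h‖ ^ 2 / h ≤
      ∑ h ∈ Finset.Icc 1 X, (if Rg2 T h ∧ ¬ Squarefree h then C ^ 2 * (1 / (h : ℝ)) else 0) := by
        refine Finset.sum_le_sum fun h _ => ?_
        split_ifs with h1
        · rw [mul_one_div]
          exact div_le_div_of_nonneg_right (pow_le_pow_left₀ (norm_nonneg _) (he h) 2) (Nat.cast_nonneg _)
        · have : e h = 0 := by
            by_contra hcon
            obtain ⟨h2, h3, h4⟩ := he' h hcon
            exact h1 ⟨⟨h2, h4⟩, h3⟩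
          rw [this]; simp
    _ = C ^ 2 * ∑ h ∈ (Finset.Icc 1 X).filter (fun n => Rg2 T n ∧ ¬ Squarefree n), 1 / (h : ℝ) := by
        rw [Finset.mul_sum, Finset.sum_filter]
    _ ≤ _ := mul_le_mul_of_nonneg_left (sum_rg2_nsq hT X) (sq_nonneg _)

end Pool.Agent.Helper25.HG
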