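import Pool.Agent.Helper25.HG.U6
import Pool.Agent.Helper9.HL.UI

/-!
# HG-U7: the main part: uniform integrability; the non-squarefree part
-/

open Finset MeasureTheory Filter Topology Set

namespace Pool.Agent.Helper25.HG

open Pool.Agent.Helper69.HG Pool.Agent.Helper85.SV

/-- the monomials of the resonator -/
noncomputable def sM : Finset (Σ k : ℕ, Fin k → ℕ) :=
  (Finset.range 33).sigma fun k => (Fintype.piFinset (fun _ : Fin k => Finset.Icc 2 32)).filter (fun i => ∑ j, i j ≤ 64)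

/-- the coefficients of the monomials -/
noncomputable def cM (m : Σ k : ℕ, Fin k → ℕ) : ℂ := ((kp ^ m.1 / m.1.factorial : ℝ) : ℂ) * (Qz (∑ j, m.2 j) : ℂ)

lemma RF_eq (T t : ℝ) : RF T t = ∑ m ∈ sM, cM m * ∏ j, Pb T (m.2 j) t := by
  unfold RF sM cM
  rw [Finset.sum_sigma]
  refine Finset.sum_congr rfl fun k _ => ?_
  rw [Finset.sum_filter, Finset.mul_sum]
  refine Finset.sum_congr rfl fun i _ => ?_
  split_ifs with h
  · ring
  · rw [Qz_zero (not_le.1 h)]; simp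

lemma Pb_cont (T : ℝ) (i : ℕ) : Continuous (Pb T i) := by
  unfold Pb
  refine continuous_finset_sum _ fun p hp => ?_
  have hp0 : (p : ℂ) ≠ 0 := by
    have := (Finset.mem_filter.1 hp).2.1.ne_zero
    exact_mod_cast this
  exact Continuous.const_cpow (by fun_prop) (Or.inl hp0)

lemma RF_cont (T : ℝ) : Continuous (RF T) := by
  have e : RF T = fun t => ∑ m ∈ sM, cM m * ∏ j, Pb T (m.2 j) t := by funext t; exact RF_eq T t
  rw [e]
  exact continuous_finset_sum _ fun m _ => continuous_const.mul (continuous_finset_prod _ fun j _ => Pb_cont T _)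

lemma lint_of_ii {f : ℝ → ℝ} (hf : Continuous f) (h0 : ∀ t, 0 ≤ f t) {T C : ℝ} (hT : 0 ≤ T)
    (h : ∫ t in T..(2 * T), f t ≤ C) :
    ∫⁻ t in Set.Icc T (2 * T), ENNReal.ofReal (f t) ≤ ENNReal.ofReal C := by
  refine lint_of_cont hf h0 ?_
  rw [integral_Icc_eq_integral_Ioc, ← intervalIntegral.integral_of_le (by linarith)]
  exact h

set_option maxRecDepth 10000 in
/-- uniform integrability of the main part -/
lemma ui_main {C ε' : ℝ} (hC : 0 ≤ C) (hε' : 0 < ε') : ∃ δ : ℝ, 0 < δ ∧ ∀ T : ℝ, 0 < T → ∀ A : ℝ → ℂ, Continuous A →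
    ∫ t in T..(2 * T), ‖A t‖ ^ 4 ≤ C * T →
    (∀ (k : ℕ) (i : Fin k → ℕ), (∀ j, 2 ≤ i j ∧ i j ≤ 32) → ∑ j, i j ≤ 64 → ∀ j₀ : Fin k,
      ∫ t in T..(2 * T), (∏ j, ‖Pb T (i j) t‖) ^ 4 * ‖Pb T (i j₀) t‖ ^ 2 ≤ C * T) →
    ∀ G : Set ℝ, G ⊆ Set.Icc T (2 * T) → volume G ≤ ENNReal.ofReal (δ * T) →
    ∫⁻ t in G, ‖A t * RF T t‖ₑ ^ 2 ≤ ENNReal.ofReal (ε' * T) := by
  obtain ⟨δ, hδ, h⟩ := Pool.Agent.HL9.ui_sum sM cM (fun m => m.1) hC hε'
  refine ⟨δ, hδ, fun T hT A hA h4 hP G hG hv => ?_⟩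
  have h1 := h T hT (Set.Icc T (2 * T)) G A (fun m i => Pb T (m.2 i)) hA.aemeasurable
    (fun m _ i => (Pb_cont T _).aemeasurable) ?_ ?_ hG hv
  · simp_rw [RF_eq]
    exact h1
  · simp_rw [enorm_pow_eq]
    exact lint_of_ii (hA.norm.pow 4) (fun t => pow_nonneg (norm_nonneg _) 4) hT.le h4
  · intro m hm i
    rw [sM, Finset.mem_sigma, Finset.mem_filter, Fintype.mem_piFinset] at hm
    obtain ⟨_, h3, h5⟩ := hm
    have h6 := hP m.1 m.2 (fun j => Finset.mem_Icc.1 (h3 j)) h5 i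
    have h7 := lint_of_ii (f := fun t => (∏ j, ‖Pb T (m.2 j) t‖) ^ 4 * ‖Pb T (m.2 i) t‖ ^ 2)
      (((continuous_finset_prod _ fun j _ => (Pb_cont T _).norm).pow 4).mul ((Pb_cont T _).norm.pow 2))
      (fun t => mul_nonneg (pow_nonneg (Finset.prod_nonneg fun _ _ => norm_nonneg _) 4) (pow_nonneg (norm_nonneg _) 2))
      hT.le h6
    have e1 : ∀ t, ENNReal.ofReal ((∏ j, ‖Pb T (m.2 j) t‖) ^ 4 * ‖Pb T (m.2 i) t‖ ^ 2) =
        (∏ j, ‖Pb T (m.2 j) t‖ₑ) ^ 4 * ‖Pb T (m.2 i) t‖ₑ ^ 2 := by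
      intro t
      have hp0 : 0 ≤ ∏ j, ‖Pb T (m.2 j) t‖ := Finset.prod_nonneg fun _ _ => norm_nonneg _
      rw [ENNReal.ofReal_mul (pow_nonneg hp0 4), ENNReal.ofReal_pow hp0,
        ENNReal.ofReal_prod_of_nonneg (fun _ _ => norm_nonneg _), enorm_pow_eq]
      simp only [ofReal_norm]
    simp only [e1] at h7
    exact h7

/-- the non-squarefree part -/
lemma ms_AD {T : ℝ} (hT : 1 < T) {A : ℝ → ℂ} (hA : Continuous A) {C₂ C : ℝ} (hC₂ : 0 ≤ C₂) {e : ℕ → ℂ}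
    (h4 : ∫ t in T..(2 * T), ‖A t‖ ^ 4 ≤ C₂ * T) (he : ∀ n, ‖e n‖ ≤ C)
    (he' : ∀ n, e n ≠ 0 → n ≠ 0 ∧ ¬ Squarefree n ∧ ∀ p ∈ n.primeFactors, 2 ≤ ixp T p ∧ ixp T p ≤ 32) :
    ∫⁻ t in Set.Icc T (2 * T), ‖A t * DP (XR T) e t‖ₑ ^ 2 ≤
      ENNReal.ofReal ((C₂ + 28 * 2 ^ 160 * (C ^ 2 * (2 * Real.exp (36 * Ls))) ^ 2) * T ^ (-(1 / 160) : ℝ) * T) := by
  have hT0 : 0 < T := by linarith
  set κ : ℝ := T ^ (-(1 / 160) : ℝ) with hκ
  have hκ0 : 0 < κ := Real.rpow_pos_of_pos hT0 _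
  have hD := continuous_DP (XR T) e
  have h1 : ∫⁻ t in Set.Icc T (2 * T), ‖A t‖ₑ ^ 4 ≤ ENNReal.ofReal (C₂ * T) := by
    simp_rw [enorm_pow_eq]
    exact lint_of_ii (hA.norm.pow 4) (fun t => pow_nonneg (norm_nonneg _) 4) hT0.le h4
  have h2 := ms_nsq hT he he'
  have h3 : ∀ t, ‖A t * DP (XR T) e t‖ₑ ^ 2 ≤
      ENNReal.ofReal κ * ‖A t‖ₑ ^ 4 + ENNReal.ofReal (1 / κ) * ‖DP (XR T) e t‖ₑ ^ 4 := by
    intro t
    rw [enorm_pow_eq, enorm_pow_eq, enorm_pow_eq, ← ENNReal.ofReal_mul hκ0.le, ← ENNReal.ofReal_mul (by positivity),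
      ← ENNReal.ofReal_add (by positivity) (by positivity)]
    apply ENNReal.ofReal_le_ofReal
    rw [norm_mul]
    set x := ‖A t‖ ^ 2 with hx
    set y := ‖DP (XR T) e t‖ ^ 2 with hy
    have e1 : (‖A t‖ * ‖DP (XR T) e t‖) ^ 2 = x * y := by rw [hx, hy]; ring
    have e2 : ‖A t‖ ^ 4 = x ^ 2 := by rw [hx]; ring
    have e3 : ‖DP (XR T) e t‖ ^ 4 = y ^ 2 := by rw [hy]; ring
    rw [e1, e2, e3]
    have hx0 : 0 ≤ x := by positivity
    have hy0 : 0 ≤ y := by positivity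
    have h5 : 0 ≤ (κ * x - y) ^ 2 / κ := by positivity
    have e4 : (κ * x - y) ^ 2 / κ = κ * x ^ 2 + 1 / κ * y ^ 2 - 2 * (x * y) := by
      field_simp
      ring
    have h6 : 0 ≤ x * y := mul_nonneg hx0 hy0
    linarith
  refine (lintegral_mono h3).trans ?_
  rw [lintegral_add_left ((hA.measurable.enorm.pow_const 4).const_mul _), lintegral_const_mul' _ _ (by simp),
    lintegral_const_mul' _ _ (by simp)]
  calc _ ≤ ENNReal.ofReal κ * ENNReal.ofReal (C₂ * T) + ENNReal.ofReal (1 / κ) *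
        ENNReal.ofReal (28 * T * (2 ^ 160 * (C ^ 2 * (2 * T ^ (-(1 / 160) : ℝ) * Real.exp (36 * Ls))) ^ 2)) := by
        gcongr
    _ = ENNReal.ofReal (κ * (C₂ * T) + 1 / κ * (28 * T * (2 ^ 160 * (C ^ 2 * (2 * κ * Real.exp (36 * Ls))) ^ 2))) := by
        rw [← ENNReal.ofReal_mul hκ0.le, ← ENNReal.ofReal_mul (by positivity),
          ← ENNReal.ofReal_add (by positivity) (by positivity)]
    _ = _ := by
        congr 1
        field_simp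

end Pool.Agent.Helper25.HG
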